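import Pool.Agent.Lib_helper97.Ebe.Main7

/-!
# The ranks of sums of squares divisible by the squared norm

`S d n` (defined in `Pool.Agent.Lib_helper26.SOS.Basic`) is the set `S_d(n)` of the problem.
The set `S_1(n)` is determined for every `n ≥ 1`.
-/

namespace Pool.Agent.Results.MP_ce7760_an.ExactSet

open Pool.Agent.Lib_helper26.SOS

theorem result : ∀ n : ℕ, 1 ≤ n → S 1 n =
    {m | m = 0 ∨ n * (n + 1) ≤ 2 * m ∨ (n = 6 ∧ m = 19) ∨
      ∃ κ a : ℕ, 1 ≤ a ∧ a ≤ κ ∧ κ ≤ n ∧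
        κ * n ≤ m + a.choose 2 + (min a (κ + 1 - a)).choose 2 ∧ m + a.choose 2 ≤ κ * n} := by
  intro n hn
  ext m
  rw [Pool.Agent.Lib_helper97.Ebe.mem_S_all hn, Pool.Agent.Lib_helper97.Ebe.val_iff]
  constructor
  · rintro ((h | ⟨κ, a, s, h1, h2, h3, h4, h5⟩) | h | h)
    · exact Or.inl h
    · exact Or.inr (Or.inr (Or.inr ⟨κ, a, h1, h2, h3, by omega, by omega⟩))
    · exact Or.inr (Or.inl h)
    · exact Or.inr (Or.inr (Or.inl h))
  · rintro (h | h | h | ⟨κ, a, h1, h2, h3, h4, h5⟩)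
    · exact Or.inl (Or.inl h)
    · exact Or.inr (Or.inl h)
    · exact Or.inr (Or.inr h)
    · exact Or.inl (Or.inr ⟨κ, a, κ * n - (m + a.choose 2), h1, h2, h3, by omega, by omega⟩)

end Pool.Agent.Results.MP_ce7760_an.ExactSet
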