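import Pool.Agent.Lib_helper26.SOS.Upper

/-!
# Ranks of sums of squares divisible by `‖z‖^{2d}`

`S d n` (defined in `Pool.Agent.Lib_helper26.SOS.Basic`) is the set `S_d(n)` of the problem.
For all `n, d ≥ 1` the set `S_d(n)` is a numerical semigroup whose least nonzero element is
`binom (n + d - 1) d`; and `S_d(1)`, `S_d(2)` are determined for every `d ≥ 1`.
-/

namespace Pool.Agent.Results.MP_ce7760_an.MinRank

open Pool.Agent.Lib_helper26.SOS

theorem result :
    (∀ n d : ℕ, 1 ≤ n → 1 ≤ d →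
      0 ∈ S d n ∧ (∀ a ∈ S d n, ∀ b ∈ S d n, a + b ∈ S d n) ∧ {m | m ∉ S d n}.Finite ∧
        IsLeast {m | m ∈ S d n ∧ m ≠ 0} ((n + d - 1).choose d)) ∧
    (∀ d : ℕ, 1 ≤ d → S d 1 = Set.univ) ∧
    (∀ d : ℕ, 1 ≤ d → S d 2 = {m | m = 0 ∨ d + 1 ≤ m}) := by
  refine ⟨?_, ?_, ?_⟩
  · intro n d hn _
    obtain ⟨k, rfl⟩ : ∃ k, n = k + 1 := ⟨n - 1, by omega⟩
    refine ⟨zero_mem_S _ _, fun a ha b hb => add_mem_S ha hb, cofinite_S _ _,
      ⟨choose_mem_S hn le_rfl, ?_⟩, fun m hm => le_of_mem_S hn hm.1 hm.2⟩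
    exact (Nat.choose_pos (by omega)).ne'
  · intro d _
    exact Set.eq_univ_of_forall fun m => mem_S_one d m
  · intro d hd
    ext m
    constructor
    · intro hm
      rcases Nat.eq_zero_or_pos m with h | h
      · exact Or.inl h
      · right
        have := le_of_mem_S (by norm_num) hm h.ne'
        rwa [show 2 + d - 1 = d + 1 by omega, Nat.choose_succ_self_right] at this
    · rintro (rfl | hm)
      · exact zero_mem_S _ _
      · have := choose_mem_S (n := 2) (D := m - 1) (d := d) (by norm_num) (by omega)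
        rw [show 2 + (m - 1) - 1 = (m - 1) + 1 by omega, Nat.choose_succ_self_right] at this
        rwa [show m - 1 + 1 = m by omega] at this

end Pool.Agent.Results.MP_ce7760_an.MinRank
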